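import Pool.Agent.Q230.DLC.Bwd
import Pool.Agent.Q230.DLC.Src2

/-!
# Circumscribed DL-Lite_bool with minimized roles is undecidable

**Proof.** The reduction is from tilings of the upper half plane with a given square at the origin
(the non-halting problem of a fixed Turing machine). There are a minimized concept `B` (the anchor,
above all other minimized names in the priority order), three modes and minimized roles `x_p^t`,
`y_p^t` for each square `t` and each parity `p`. All elements have a mode and the mode is written at
some element of `B`. In the grid mode each element with a parity and a square has successors by the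
roles of its parity and square, and these have the other parity and a matching square; the elements
of the fixed concept `G` must have a parity and a square. In the defect mode of parity `q` there are
only four edges `x`, `y` from an element of parity `q`, continued by `y`, `x`, with different ends.
As defect models of the required kind exist on each domain with two elements, all models of the
circumscription have one anchor, hence one mode. If it is the grid mode, then two successors `y(x(d))`
and `x(y(d))` are always equal: otherwise the four edges would be a smaller model in a defect mode.
So such a model contains a tiled half plane. Conversely, the grid itself has no smaller models: those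
in the grid mode need all edges, and those in a defect mode would need a square which does not close.
-/

set_option autoImplicit false

open Pool.Agent.Q230.DLC

namespace Pool.Agent.Results.MP_9ab704_lc.MinimizedRolesUndecidable

theorem strong : ¬ ∃ g : Inp → Bool, Computable g ∧ Decides IsB g := by
  classical
  rintro ⟨g, hg, hdec⟩
  obtain ⟨W, q0, P, hW, hP, hq0, hiff⟩ := source
  apply hP
  have h1 : Computable (fun m => inp (c0 q0) (kb (W m)) (pat (W m))) :=
    (p_inp q0).to_comp.comp hW
  have h2 : Computable (fun m => g (inp (c0 q0) (kb (W m)) (pat (W m)))) := hg.comp h1
  have h3 : ∀ m, g (inp (c0 q0) (kb (W m)) (pat (W m))) = true ↔ ¬ P m := by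
    intro m
    rw [hdec _ _ _ ⟨rfl, rfl⟩ (pat_valid _), ← hiff m]
    exact ⟨til_of_sat _ _ (hq0 m), sat_of_til _ _⟩
  have h4 : Computable (fun m => !(g (inp (c0 q0) (kb (W m)) (pat (W m))))) :=
    (Primrec.not.to_comp).comp h2
  refine ComputablePred.computable_iff.2 ⟨_, h4, ?_⟩
  funext m
  have := h3 m
  cases hgm : g (inp (c0 q0) (kb (W m)) (pat (W m))) with
  | true =>
    rw [hgm] at this
    simp only [true_iff] at this
    simp [this]
  | false =>
    rw [hgm] at this
    simp only [Bool.false_eq_true, false_iff, not_not] at this
    simp [this]

theorem result :
    (¬ ∃ g : Inp → Bool, Computable g ∧ Decides IsF g) ∧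
    (¬ ∃ g : Inp → Bool, Computable g ∧ Decides IsR g) ∧
    ¬ ∃ g : Inp → Bool, Computable g ∧ Decides IsB g := by
  refine ⟨?_, ?_, strong⟩
  · rintro ⟨g, hg, h⟩
    exact strong ⟨g, hg, fun C K P hK hP => h C K P hK.2 hP⟩
  · rintro ⟨g, hg, h⟩
    exact strong ⟨g, hg, fun C K P hK hP => h C K P hK.1 hP⟩

end Pool.Agent.Results.MP_9ab704_lc.MinimizedRolesUndecidable
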